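import Pool.Agent.H234.Polar.Lower
import Pool.Agent.H234.Polar.Sharp

/-!
# The sharp lower bound for `λ₁ A³ / I` on bounded convex plane domains

For every bounded convex plane domain `Ω`, with area `A`, polar moment of inertia `I` about the
centroid and first Dirichlet eigenvalue `λ₁`, one has `9 π² / 2 < λ₁ A³ / I`; the constant cannot be
enlarged, as long right triangles show.  This is the left inequality of the question.  (The right
inequality, `λ₁ A³ / I ≤ 12 π²`, is false.)

Idea.  In the frame whose first axis is a diameter of `Ω` let `ℓ` and `m` be the lengths of the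
longest chords parallel to the two axes.  Slicing gives `λ₁ ≥ π² (1 / ℓ² + 1 / m²)`.  On the other
hand a concave function with integral `A` and maximum `m` has variance integral at most
`2 A³ / (9 m²)`, with strict inequality if the maximum is not at an end of the interval: the
function is the image of a two-sided triangular profile under a contraction.  Adding the two
directions gives `I < 2 A³ / 9 (1 / ℓ² + 1 / m²)`.

The definitions of area, centroid, moment and eigenvalue below are exactly those of the frozen
statement of the problem.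
-/

open MeasureTheory

namespace Pool.Agent.Results.MP_791656_an.SharpLowerBound

/-- A bounded convex plane domain: nonempty, bounded, open and convex. -/
def IsConvexDomain (Ω : Set (EuclideanSpace ℝ (Fin 2))) : Prop :=
  IsOpen Ω ∧ Convex ℝ Ω ∧ Bornology.IsBounded Ω ∧ Ω.Nonempty

/-- The area. -/
noncomputable def area (Ω : Set (EuclideanSpace ℝ (Fin 2))) : ℝ := (volume Ω).toReal

/-- The centroid. -/
noncomputable def centroid (Ω : Set (EuclideanSpace ℝ (Fin 2))) : EuclideanSpace ℝ (Fin 2) :=
  (area Ω)⁻¹ • ∫ x in Ω, x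

/-- The polar moment of inertia about the centroid. -/
noncomputable def polarMoment (Ω : Set (EuclideanSpace ℝ (Fin 2))) : ℝ :=
  ∫ x in Ω, ‖x - centroid Ω‖ ^ 2

/-- The first Dirichlet eigenvalue, as the infimum of the Rayleigh quotient over nonzero `C¹`
functions with compact support in `Ω`. -/
noncomputable def firstEigenvalue (Ω : Set (EuclideanSpace ℝ (Fin 2))) : ℝ :=
  sInf {r : ℝ | ∃ u : EuclideanSpace ℝ (Fin 2) → ℝ,
    ContDiff ℝ 1 u ∧ HasCompactSupport u ∧ tsupport u ⊆ Ω ∧ u ≠ 0 ∧
    r = (∫ x, ‖fderiv ℝ u x‖ ^ 2) / (∫ x, u x ^ 2)}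

/-- The scale invariant quantity `λ₁ A³ / I`. -/
noncomputable def tone (Ω : Set (EuclideanSpace ℝ (Fin 2))) : ℝ :=
  firstEigenvalue Ω * area Ω ^ 3 / polarMoment Ω

/-- The left inequality of the question holds for all bounded convex plane domains, and its
constant is the best possible one. -/
theorem result :
    (∀ Ω : Set (EuclideanSpace ℝ (Fin 2)), IsConvexDomain Ω → 9 / 2 * Real.pi ^ 2 < tone Ω) ∧
    (∀ ε : ℝ, 0 < ε → ∃ Ω : Set (EuclideanSpace ℝ (Fin 2)), IsConvexDomain Ω ∧
      tone Ω < 9 / 2 * Real.pi ^ 2 + ε) :=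
  ⟨fun Ω ⟨ho, hc, hb, hn⟩ =>
    H234.Polar.lower Ω ho hc hb hn (area Ω) (polarMoment Ω) (firstEigenvalue Ω) (centroid Ω)
      rfl rfl rfl rfl,
   fun ε hε => by
    obtain ⟨Ω, h1, h2, h3, h4, h5⟩ := H234.Polar.Sharp.sharp hε
    exact ⟨Ω, ⟨h1, h2, h3, h4⟩, h5 (area Ω) (polarMoment Ω) (firstEigenvalue Ω) (centroid Ω)
      rfl rfl rfl rfl⟩⟩

end Pool.Agent.Results.MP_791656_an.SharpLowerBound
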